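import Pool.Agent.Lib.MP_973905_nt.K10.AllK10
import Pool.Agent.Lib.MP_973905_nt.K9.AllK9
import Pool.Agent.Lib.MP_973905_nt.K7.AllK7
import Pool.Agent.Lib.MP_973905_nt.K5.G

/-! Bounds for the moments of the Riemann zeta function of every fixed order `k > 0`,
`k ≠ 1`, with explicit constants: from below for all `k`, from above for `k < 2`. -/

namespace Pool.Agent.Results.MP_973905_nt.AllOrders

open Pool.Agent.Lib.MP_973905_nt MeasureTheory Complex

/-- For every fixed `k > 0`, `k ≠ 1`, the limit inferior of the `2k`-th moment of the zeta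
function on the critical line, divided by the prediction `c_k (log T)^{k²}`, is at least
`(k/e)^(3k²)` if `k < 1`, at least `(k - 1)^(k - 1) exp (-(18/5) (k - 1)²)` if `1 < k < 2`, and
at least `8^(-k(k-1)) k^(-k(k-2))` if `k ≥ 2`. For `k < 2` its limit superior is at most
`min (3/2) (exp (5/2 k (1 - k)))` if `k < 1` and at most
`min 3 (exp (5 (k - 1) (2 - k) + (k - 1)/100))` if `k > 1`. -/
theorem result : ∀ k : ℝ, 0 < k → k ≠ 1 → ∀ ε : ℝ, 0 < ε → ∃ T₀ : ℝ, 3 ≤ T₀ ∧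
    ∀ T : ℝ, T₀ ≤ T →
    (if k < 1 then (k / Real.exp 1) ^ (3 * k ^ 2)
      else if k < 2 then (k - 1) ^ (k - 1) * Real.exp (-(18 / 5 * (k - 1) ^ 2))
      else 8 ^ (-(k * (k - 1))) * k ^ (-(k * (k - 2)))) - ε ≤
      (T⁻¹ * ∫ t in (0 : ℝ)..T, ‖riemannZeta (1 / 2 + t * I)‖ ^ (2 * k)) /
        (cK k * (Real.log T) ^ (k ^ 2)) ∧
    (k < 2 → (T⁻¹ * ∫ t in (0 : ℝ)..T, ‖riemannZeta (1 / 2 + t * I)‖ ^ (2 * k)) /
      (cK k * (Real.log T) ^ (k ^ 2)) ≤
        (if k < 1 then min (3 / 2) (Real.exp (5 / 2 * (k * (1 - k))))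
          else min 3 (Real.exp (5 * ((k - 1) * (2 - k)) + (k - 1) / 100))) + ε) := by
  intro k h0 h1 ε hε
  by_cases hk : k < 1
  · obtain ⟨T₀, hT₀, h⟩ := K5.final5 K5.stG k h0 hk ε hε
    obtain ⟨T₁, hT₁, h'⟩ := K9.final9 k h0 hk ε hε
    refine ⟨max T₀ T₁, hT₀.trans (le_max_left _ _), fun T hT => ?_⟩
    rw [if_pos hk, if_pos hk]
    exact ⟨h' T ((le_max_right _ _).trans hT), fun _ => h T ((le_max_left _ _).trans hT)⟩
  · have hk' : 1 < k := lt_of_le_of_ne (not_lt.1 hk) (Ne.symm h1)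
    by_cases h2 : k < 2
    · obtain ⟨T₀, hT₀, h⟩ := K7.final7 (k - 1) (by linarith) (by linarith) ε hε
      obtain ⟨T₁, hT₁, h'⟩ := K8.final8 (k - 1) (by linarith) (by linarith) ε hε
      have e1 : 1 + (k - 1) = k := by ring
      have e2 : 1 - (k - 1) = 2 - k := by ring
      refine ⟨max T₀ T₁, hT₀.trans (le_max_left _ _), fun T hT => ?_⟩
      rw [if_neg hk, if_neg hk, if_pos h2]
      constructor
      · have h3 := h' T ((le_max_right _ _).trans hT)
        rw [e1, K8.LL8] at h3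
        exact h3
      · have h3 := h T ((le_max_left _ _).trans hT)
        rw [e1] at h3
        rw [K7.CC7, e2] at h3
        exact fun _ => h3
    · obtain ⟨T₀, hT₀, h⟩ := K10.final10 k (not_lt.1 h2) ε hε
      refine ⟨T₀, hT₀, fun T hT => ?_⟩
      rw [if_neg hk, if_neg hk, if_neg h2]
      exact ⟨h T hT, fun h3 => absurd h3 h2⟩

end Pool.Agent.Results.MP_973905_nt.AllOrders
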