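import Pool.Agent.Lib.MP_973905_nt.F4.AllF4

/-! The Keating-Snaith formula for the moments of the Riemann zeta function of order near 2. -/

namespace Pool.Agent.Results.MP_973905_nt.JointLimitOne

open Pool.Agent.Lib.MP_973905_nt MeasureTheory Complex

/-- The moments of the Riemann zeta function on the critical line follow the Keating-Snaith
prediction `c_k (log T)^{k²}` as `T → ∞` and `k → 1` (from both sides), jointly and uniformly. -/
theorem result : ∀ ε : ℝ, 0 < ε → ∃ δ : ℝ, 0 < δ ∧ δ < 1 ∧ ∃ T₀ : ℝ, 3 ≤ T₀ ∧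
    ∀ T : ℝ, T₀ ≤ T → ∀ k : ℝ, |k - 1| ≤ δ →
    |(T⁻¹ * ∫ t in (0 : ℝ)..T, ‖riemannZeta (1 / 2 + t * I)‖ ^ (2 * k)) /
      (cK k * (Real.log T) ^ (k ^ 2)) - 1| ≤ ε :=
  F4.final2

end Pool.Agent.Results.MP_973905_nt.JointLimitOne
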