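import Pool.Agent.Lib.MP_973905_nt.K3.AllK3
import Pool.Agent.Lib.MP_973905_nt.K4.AllK4

/-! The Keating-Snaith formula for the moments of the Riemann zeta function of order near 4: the
sharp lower bound to the right and the sharp upper bound to the left. -/

namespace Pool.Agent.Results.MP_973905_nt.NearTwo

open Pool.Agent.Lib.MP_973905_nt MeasureTheory Complex

/-- As `T → ∞` and `k → 2`, jointly and uniformly, the moments of the Riemann zeta function on the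
critical line are at least `(1 - ε) c_k (log T)^{k²}` for `k ≥ 2` and at most
`(1 + ε) c_k (log T)^{k²}` for `k ≤ 2`. -/
theorem result : ∀ ε : ℝ, 0 < ε → ∃ δ : ℝ, 0 < δ ∧ δ < 1 ∧ ∃ T₀ : ℝ, 3 ≤ T₀ ∧
    ∀ T : ℝ, T₀ ≤ T → ∀ k : ℝ, |k - 2| ≤ δ →
    (2 ≤ k → 1 - ε ≤ (T⁻¹ * ∫ t in (0 : ℝ)..T, ‖riemannZeta (1 / 2 + t * I)‖ ^ (2 * k)) /
      (cK k * (Real.log T) ^ (k ^ 2))) ∧
    (k ≤ 2 → (T⁻¹ * ∫ t in (0 : ℝ)..T, ‖riemannZeta (1 / 2 + t * I)‖ ^ (2 * k)) /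
      (cK k * (Real.log T) ^ (k ^ 2)) ≤ 1 + ε) := by
  intro ε hε
  obtain ⟨k₁, hk₁, T₁, hT₁, h1⟩ := K3.final ε hε
  obtain ⟨k₂, hk₂, hk₂', T₂, hT₂, h2⟩ := K4.final ε hε
  refine ⟨min (k₁ - 2) (2 - k₂), lt_min (by linarith) (by linarith),
    lt_of_le_of_lt (min_le_right _ _) (by linarith), max T₁ T₂, hT₁.trans (le_max_left _ _),
    fun T hT k hk => ?_⟩
  obtain ⟨ha, hb⟩ := abs_le.1 hk
  have hm1 := min_le_left (k₁ - 2) (2 - k₂)
  have hm2 := min_le_right (k₁ - 2) (2 - k₂)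
  exact ⟨fun h => h1 T ((le_max_left _ _).trans hT) k h (by linarith),
    fun h => h2 T ((le_max_right _ _).trans hT) k (by linarith) h⟩

end Pool.Agent.Results.MP_973905_nt.NearTwo
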