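import Pool.Agent.Lib.MP_973905_nt.Final

/-! The Keating-Snaith formula for small moments of the Riemann zeta function. -/

namespace Pool.Agent.Results.MP_973905_nt.SmallMoments

open Pool.Agent.Lib.MP_973905_nt MeasureTheory Complex

/-- The moments of the Riemann zeta function on the critical line follow the Keating-Snaith
prediction `c_k (log T)^{k²}` as `T → ∞` and `k → 0+`, uniformly, and also over intervals
`[a, b]` inside `[-T, T]` of length at least `T^{49/50}` (for instance `[0, T]`). -/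
theorem result : ∀ ε : ℝ, 0 < ε → ∃ k₀ : ℝ, 0 < k₀ ∧ ∃ T₀ : ℝ, 3 ≤ T₀ ∧
    ∀ T : ℝ, T₀ ≤ T → ∀ a b : ℝ, -T ≤ a → b ≤ T → T ^ (49 / 50 : ℝ) ≤ b - a →
    ∀ k : ℝ, 0 < k → k ≤ k₀ →
    |((b - a)⁻¹ * ∫ t in a..b, ‖riemannZeta (1 / 2 + t * I)‖ ^ (2 * k)) /
      (cK k * (Real.log T) ^ (k ^ 2)) - 1| ≤ ε :=
  small_moments

end Pool.Agent.Results.MP_973905_nt.SmallMoments
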